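import Pool.Agent.K3h75.NW.Stm
import Pool.Agent.K3h75.ND.StmK

/-!
# Coverings of projective spaces with nodal reductions: statements (counting)
-/

set_option autoImplicit false

namespace Pool.Agent.K3h75.NW

open MvPolynomial Pool.Agent.R187.WC Pool.Agent.K3h75.ND NumberField

/-- The exponents of weight `m e` different from that of `w ^ m`. -/
def CoefW (N e m : ℕ) : Type :=
  {s : Option (Fin (N + 1)) →₀ ℕ // Finsupp.weight (wt e) s = m * e ∧ s none < m}

instance (N e m : ℕ) : Finite (CoefW N e m) := by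
  classical
  refine Finite.of_injective (fun (s : CoefW N e m) (o : Option (Fin (N + 1))) =>
    (⟨s.1 o, by
      have h1 := s.2.1
      rw [weight_eq] at h1
      rcases o with _ | j
      · have h2 := s.2.2
        omega
      · have h2 : s.1 (some j) ≤ ∑ j, s.1 (some j) :=
          Finset.single_le_sum (f := fun j => s.1 (some j)) (fun _ _ => Nat.zero_le _)
            (Finset.mem_univ j)
        omega⟩ : Fin (m * e + m + 1))) ?_
  intro a b h
  apply Subtype.ext
  ext o
  have h1 := congrFun h o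
  exact congrArg Fin.val h1

noncomputable instance (N e m : ℕ) : Fintype (CoefW N e m) := Fintype.ofFinite _

/-- The form `w ^ m + ∑ a s X ^ s`. -/
noncomputable def wform {N e m : ℕ} {R : Type} [CommRing R] (a : CoefW N e m → R) :
    MvPolynomial (Option (Fin (N + 1))) R :=
  X none ^ m + ∑ s, monomial s.1 (a s)

/-- The monomial `s` is the power `x_0 ^ (m e)`. -/
def IsFirstW {N e m : ℕ} (s : CoefW N e m) : Prop := s.1 = Finsupp.single (some 0) (m * e)

/-- The monomial `s` is a power `x_i ^ (m e)`. -/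
def IsPowW {N e m : ℕ} (s : CoefW N e m) : Prop := ∃ i, s.1 = Finsupp.single (some i) (m * e)

/-- The monomials different from `w ^ m` and `x_0 ^ (m e)`. -/
def IdxW (N e m : ℕ) : Type := {s : CoefW N e m // ¬ IsFirstW s}

instance (N e m : ℕ) : Finite (IdxW N e m) :=
  inferInstanceAs (Finite {s : CoefW N e m // ¬ IsFirstW s})

noncomputable instance (N e m : ℕ) : Fintype (IdxW N e m) := Fintype.ofFinite _

open Classical in
/-- The coefficients of the form `w ^ m + ∑ b s X ^ s + c ∑ x_i ^ (m e)`. -/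
noncomputable def pcoefW {N e m : ℕ} {R : Type} [CommRing R] (b : IdxW N e m → R) (c : R)
    (s : CoefW N e m) : R :=
  (if h : IsFirstW s then 0 else b ⟨s, h⟩) + (if IsPowW s then c else 0)

/-- The form `w ^ m + ∑ b s X ^ s + c ∑ x_i ^ (m e)`. -/
noncomputable def pformW {N e m : ℕ} {R : Type} [CommRing R] (b : IdxW N e m → R) (c : R) :
    MvPolynomial (Option (Fin (N + 1))) R := wform (pcoefW b c)

/-- The Hessian determinant in the variables different from `x_s`, at the point `x`. -/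
noncomputable def hdetW {N : ℕ} {k : Type} [CommRing k]
    (G : MvPolynomial (Option (Fin (N + 1))) k) (s : Fin (N + 1))
    (x : Option (Fin (N + 1)) → k) : k :=
  (Matrix.of fun i j : {j : Option (Fin (N + 1)) // j ≠ some s} =>
    eval x (pderiv i.1 (pderiv j.1 G))).det

/-- **E1W**: the values `c` for which `w ^ m + ∑ b s X ^ s + c ∑ x_i ^ (m e)` is singular are zeros
of a polynomial, monic in `δ c`. -/
def S_E1W : Prop := ∀ N e m : ℕ, 1 ≤ e → 2 ≤ m → ∃ (δ : ℕ)
  (g : Polynomial (MvPolynomial (IdxW N e m) ℤ)), 1 ≤ δ ∧ g.Monic ∧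
  ∀ (k : Type) [Field k] (b : IdxW N e m → k) (c : k) (x : Option (Fin (N + 1)) → k)
    (s : Fin (N + 1)), x (some s) ≠ 0 → (∀ j, eval x (pderiv j (pformW b c)) = 0) →
    ev g b ((δ : k) * c) = 0

/-- **GNDW**: for generic `b` the singular points are nondegenerate, for all algebraic `c`. -/
def S_GNDW : Prop := ∀ N e m : ℕ, 1 ≤ e → 2 ≤ m → ∀ (L : Type) [Field L]
  [Algebra (FractionRing (MvPolynomial (IdxW N e m) ℤ)) L]
  [Algebra.IsAlgebraic (FractionRing (MvPolynomial (IdxW N e m) ℤ)) L] (c : L)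
  (x : Option (Fin (N + 1)) → L) (s : Fin (N + 1)), x (some s) = 1 →
  (∀ j, eval x (pderiv j (pformW (fun t => algebraMap (FractionRing
    (MvPolynomial (IdxW N e m) ℤ)) L (algebraMap (MvPolynomial (IdxW N e m) ℤ) _ (X t))) c)) = 0) →
  hdetW (pformW (fun t => algebraMap (FractionRing (MvPolynomial (IdxW N e m) ℤ)) L
    (algebraMap (MvPolynomial (IdxW N e m) ℤ) _ (X t))) c) s x ≠ 0

/-- **E2W**: if there is a degenerate singular point then `Δ (b) = 0`. -/
def S_E2W : Prop := ∀ N e m : ℕ, 1 ≤ e → 2 ≤ m → ∃ Δ : MvPolynomial (IdxW N e m) ℤ, Δ ≠ 0 ∧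
  ∀ (k : Type) [Field k] (b : IdxW N e m → k) (c : k) (x : Option (Fin (N + 1)) → k)
    (s : Fin (N + 1)), x (some s) = 1 → (∀ j, eval x (pderiv j (pformW b c)) = 0) →
    hdetW (pformW b c) s x = 0 → eval₂ (Int.castRingHom k) b Δ = 0

/-- **SMPW**: smooth coverings modulo all prime numbers. -/
def S_SMPW : Prop := ∀ N e m : ℕ, 1 ≤ N → 1 ≤ e → 2 ≤ m → 3 ≤ m * e → ∀ p : ℕ, p.Prime →
  ∃ a : CoefW N e m → ℤ, ∀ (k : Type) [Field k] [CharP k p] (x : Option (Fin (N + 1)) → k),
    eval x (wform fun s => (a s : k)) = 0 →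
    (∀ j, eval x (pderiv j (wform fun s => (a s : k))) = 0) → x = 0

/-- The covering with coefficients `a` in the ring `O` is smooth over all fields of characteristic
zero, and over all fields of positive characteristic it has only nondegenerate singular points. -/
def GoodVecW {O : Type} [CommRing O] {N e m : ℕ} (a : CoefW N e m → O) : Prop :=
  (∀ (k : Type) [Field k] [CharZero k] (φ : O →+* k) (x : Option (Fin (N + 1)) → k),
    (∀ j, eval x (pderiv j (wform fun s => φ (a s))) = 0) → ∀ i, x (some i) = 0) ∧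
  ∀ p : ℕ, p.Prime → ∀ (k : Type) [Field k] [CharP k p] (φ : O →+* k)
    (x : Option (Fin (N + 1)) → k) (s : Fin (N + 1)), x (some s) = 1 →
    eval x (wform fun s => φ (a s)) = 0 →
    (∀ j, eval x (pderiv j (wform fun s => φ (a s))) = 0) →
    hdetW (wform fun s => φ (a s)) s x ≠ 0

/-- **CNTW**: a positive proportion of all coverings with coefficients in `O`. -/
def S_CNTW : Prop := ∀ (O ι : Type) [CommRing O] [IsDomain O] [CharZero O] [Fintype ι]
  (ω : Module.Basis ι ℤ O) (N e m : ℕ), 1 ≤ N → 1 ≤ e → 2 ≤ m → 3 ≤ m * e →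
  ∃ c : ℝ, 0 < c ∧ ∃ H₀ : ℕ, ∀ H : ℕ, H₀ ≤ H →
    c * (2 * (H : ℝ) + 1) ^ (Fintype.card (CoefW N e m) * Fintype.card ι) ≤
      ({a : CoefW N e m → O | (∀ s i, |ω.repr (a s) i| ≤ H) ∧ GoodVecW a}.ncard : ℝ)

/-- **G0W**: smoothness and nodal reductions over all number fields. -/
def S_G0W : Prop := ∀ (n e m : ℕ), 1 ≤ e → 1 ≤ m → ∀ (O : Type) [CommRing O]
  (a : CoefW n e m → O), GoodVecW a → ∀ (E : Type) [Field E] [NumberField E] (ψ : O →+* 𝓞 E),
  SmoothW (map (algebraMap (𝓞 E) E) (wform fun s => ψ (a s))) ∧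
  ∀ 𝔭 : Ideal (𝓞 E), 𝔭.IsPrime → 𝔭 ≠ ⊥ → NodW 𝔭 (wform fun s => ψ (a s))

end Pool.Agent.K3h75.NW
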