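import Pool.Agent.K3h75.NW.StmAW

/-!
# Affine coverings: models, and the counting of polynomials
-/

set_option autoImplicit false
set_option linter.unusedSectionVars false
set_option linter.unusedVariables false

namespace Pool.Agent.K3h75.NW

open MvPolynomial Pool.Agent.R187.WC NumberField AlgebraicGeometry CategoryTheory
open Pool.Agent.W418 Pool.Agent.TH214.RM

theorem map_dhW {R S : Type} [CommRing R] [CommRing S] (φ : R →+* S) {n : ℕ}
    (G : MvPolynomial (Option (Fin (n + 1))) R) : map φ (dhW G) = dhW (map φ G) := by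
  induction G using MvPolynomial.induction_on with
  | C a => simp [dhW]
  | add p q hp hq => simp only [dhW, map_add] at hp hq ⊢; rw [hp, hq]
  | mul_X p i hp =>
    simp only [dhW, map_mul, aeval_X, map_X] at hp ⊢
    rw [hp]
    congr 1
    rcases i with _ | i
    · simp
    · refine Fin.cases ?_ (fun j => ?_) i
      · simp
      · simp

/-- The counting of the good polynomials. -/
theorem countAW (hPB : S_PBW) (hC : S_CNTW) {O ι : Type} [CommRing O] [IsDomain O] [CharZero O]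
    [Fintype ι] (ω : Module.Basis ι ℤ O) (n e m : ℕ) (hn : 1 ≤ n) (he : 1 ≤ e) (hm : 2 ≤ m)
    (hme : 3 ≤ m * e) (P : MvPolynomial (Option (Fin n)) O → Prop)
    (hP : ∀ a : CoefW n e m → O, GoodVecW a → P (dhW (wform a))) :
    (∀ H : ℕ, (PWBox ω n e m H).Finite) ∧
    ∃ c : ℝ, 0 < c ∧ ∃ H₀ : ℕ, ∀ H : ℕ, H₀ ≤ H →
      c * ((PWBox ω n e m H).ncard : ℝ) ≤ ({f ∈ PWBox ω n e m H | P f}.ncard : ℝ) := by
  have hfin : ∀ H : ℕ, (PWBox ω n e m H).Finite := by
    intro H
    rw [← (hPB O ι ω n e m H he).image_eq]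
    exact (wbox_finite ω n e m H he).1.image _
  refine ⟨hfin, ?_⟩
  obtain ⟨c, hc, H₀, h⟩ := countW hC ω n e m hn he hm hme (fun G => P (dhW G)) hP
  refine ⟨c, hc, H₀, fun H hH => ?_⟩
  have hb := hPB O ι ω n e m H he
  have h1 : (PWBox ω n e m H).ncard = (WBox ω n e m H).ncard := by
    rw [← hb.image_eq]
    exact hb.injOn.ncard_image
  have h2 : {F ∈ WBox ω n e m H | P (dhW F)}.ncard ≤ {f ∈ PWBox ω n e m H | P f}.ncard := by
    refine Set.ncard_le_ncard_of_injOn dhW ?_ ?_ ((hfin H).subset (Set.sep_subset _ _))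
    · rintro F ⟨hF, hF2⟩
      exact ⟨hb.mapsTo hF, hF2⟩
    · intro F hF G hG hFG
      exact hb.injOn hF.1 hG.1 hFG
  rw [h1]
  exact (h H hH).trans (by exact_mod_cast h2)

/-- The regular proper models of the function field. -/
theorem model_affW (hAFF : S_AFFW) (hHM : S_HMW) (hGM : S_GMW) {E : Type} [Field E] [NumberField E]
    {n : ℕ} (hn : 1 ≤ n) (e m : ℕ) (he : 1 ≤ e) (hm : 1 ≤ m)
    (P : MvPolynomial (Option (Fin (n + 1))) (𝓞 E))
    (hPd : P.IsWeightedHomogeneous (wt e) (m * e)) (hc : coeff (Finsupp.single none m) P = 1)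
    (hsm : SmoothW (map (algebraMap (𝓞 E) E) P))
    (hnod : ∀ 𝔭 : Ideal (𝓞 E), 𝔭.IsPrime → 𝔭 ≠ ⊥ → NodW 𝔭 P) :
    Irreducible (dhW (map (algebraMap (𝓞 E) E) P)) ∧
    ∃ (X' : Scheme.{0}) (_ : IsIntegral X') (g : X' ⟶ Spec (CommRingCat.of ℤ)),
      IsProper g ∧
      (∀ x : X',
        (((Module.finrank (IsLocalRing.ResidueField (X'.presheaf.stalk x))
            (IsLocalRing.CotangentSpace (X'.presheaf.stalk x)) : ℕ∞)) : WithBot ℕ∞)
          = ringKrullDim (X'.presheaf.stalk x)) ∧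
      Nonempty (X'.functionField ≃+*
        FractionRing (MvPolynomial (Option (Fin n)) E ⧸
          Ideal.span {dhW (map (algebraMap (𝓞 E) E) P)})) := by
  have hPd' : (map (algebraMap (𝓞 E) E) P).IsWeightedHomogeneous (wt e) (m * e) := whom_map _ hPd
  have hc' : coeff (Finsupp.single none m) (map (algebraMap (𝓞 E) E) P) ≠ 0 := by
    rw [coeff_map, hc, map_one]
    exact one_ne_zero
  have hirr := irreducible_of_smoothW hn e m he hm _ hPd' hc' hsm
  obtain ⟨hdir, F, _, _, x, b, hx0, hrel, hgen, htb, ⟨ε⟩⟩ := hAFF E n e m he hm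
    (map (algebraMap (𝓞 E) E) P) hPd' hc' hirr
  refine ⟨hdir, ?_⟩
  let _ : Algebra (𝓞 E) F := ((algebraMap E F).comp (algebraMap (𝓞 E) E)).toAlgebra
  have hst : IsScalarTower (𝓞 E) E F := IsScalarTower.of_algebraMap_eq fun _ => rfl
  have hrel' : aeval x P = 0 := by
    have h1 := hrel
    rw [aeval_map_algebraMap] at h1
    exact h1
  have hM : GoodModule (𝓞 E) (zz e x) :=
    hGM (𝓞 E) E F n m e hm he P hPd hc hsm hnod x hx0 hrel' hgen b htb
  have hOF : Function.Injective (algebraMap (𝓞 E) F) := by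
    rw [IsScalarTower.algebraMap_eq (𝓞 E) E F]
    exact (algebraMap E F).injective.comp (IsFractionRing.injective (𝓞 E) E)
  obtain ⟨X', hX', g, hg, hreg, ⟨i⟩⟩ := Pool.Agent.H918R2.Quad.model_of_hasModule hOF
    (hHM (𝓞 E) E F n e he x hx0 hgen hM)
  exact ⟨X', hX', g, hg, hreg, ⟨i.trans ε⟩⟩

end Pool.Agent.K3h75.NW
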