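import Pool.Agent.K3h75.NW.AllW
import Pool.Agent.K3h75.NW.FinAW
import Pool.Agent.K3h75.ND.AllA
import Pool.Agent.K3h73.NW.AFFW
import Pool.Agent.K3h90.NW.HMW
import Pool.Agent.K3h87.NW.PBW

/-!
# Affine coverings: summary

Bricks: function field (helper73), fraction fields of the charts (helper90), weighted forms and
polynomials (helper87).
-/

set_option autoImplicit false

namespace Pool.Agent.K3h75.NW

theorem pbw_ok : S_PBW := Pool.Agent.K3h87.NW.t_PBW

theorem affw_ok : S_AFFW := Pool.Agent.K3h73.NW.t_AFFW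

theorem hmw_ok : S_HMW := Pool.Agent.K3h90.NW.t_HMW

end Pool.Agent.K3h75.NW
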