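import Pool.Agent.K3h75.NW.StmN

/-!
# Coverings with nodal reductions: models, and the counting of coverings
-/

set_option autoImplicit false
set_option linter.unusedSectionVars false
set_option linter.unusedVariables false

namespace Pool.Agent.K3h75.NW

open MvPolynomial Pool.Agent.R187.WC NumberField AlgebraicGeometry CategoryTheory
open Pool.Agent.W418 Pool.Agent.H918R2.Quad Pool.Agent.TH214.RM

/-- Models of smooth coverings with nodal reductions. -/
theorem model_nodW (hGM : S_GMW) {E : Type} [Field E] [NumberField E] {n : ℕ} (hn : 1 ≤ n)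
    (e m : ℕ) (he : 1 ≤ e) (hm : 1 ≤ m) (P : MvPolynomial (Option (Fin (n + 1))) (𝓞 E))
    (hPd : P.IsWeightedHomogeneous (wt e) (m * e)) (hc : coeff (Finsupp.single none m) P = 1)
    (hsm : SmoothW (map (algebraMap (𝓞 E) E) P))
    (hnod : ∀ 𝔭 : Ideal (𝓞 E), 𝔭.IsPrime → 𝔭 ≠ ⊥ → NodW 𝔭 P) {B : Type} [CommRing B]
    [Algebra E B]
    (j : B →ₐ[E] (MvPolynomial (Option (Fin (n + 1))) E ⧸
      Ideal.span {map (algebraMap (𝓞 E) E) P}))
    (hj : Function.Injective j) (ℬ : ℕ → Submodule E B) [GradedAlgebra ℬ]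
    (hℬ : ∀ d, (ℬ d).map j.toLinearMap =
      (weightedHomogeneousSubmodule E (wt (ι := Fin (n + 1)) e) (d * e)).map
        (Ideal.Quotient.mkₐ E (Ideal.span {map (algebraMap (𝓞 E) E) P})).toLinearMap)
    {Y : Scheme.{0}} (f : Y ⟶ Spec (CommRingCat.of E)) (i : Y ≅ Proj ℬ)
    (hi : i.hom ≫ GO.projStr ℬ = f) : GO.HasModel (𝓞 E) E f := by
  have hPd' : (map (algebraMap (𝓞 E) E) P).IsWeightedHomogeneous (wt e) (m * e) := whom_map _ hPd
  have hc' : coeff (Finsupp.single none m) (map (algebraMap (𝓞 E) E) P) ≠ 0 := by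
    rw [coeff_map, hc, map_one]
    exact one_ne_zero
  have hirr := irreducible_of_smoothW hn e m he hm _ hPd' hc' hsm
  obtain ⟨F, _, _, x, b, hx0, hrel, hgen, htb⟩ := exists_ffW e m he hm _ hPd' hc' hirr
  let _ : Algebra (𝓞 E) F := ((algebraMap E F).comp (algebraMap (𝓞 E) E)).toAlgebra
  have hst : IsScalarTower (𝓞 E) E F := IsScalarTower.of_algebraMap_eq fun _ => rfl
  have hrel' : aeval x P = 0 := by
    have h1 := hrel
    rw [aeval_map_algebraMap] at h1
    exact h1
  have hM : GoodModule (𝓞 E) (zz e x) :=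
    hGM (𝓞 E) E F n m e hm he P hPd hc hsm hnod x hx0 hrel' hgen b htb
  obtain ⟨ε, hε, hεgen, hε1⟩ := exists_epsW e he x hx0 hgen b htb _ hirr.prime _ hPd' hrel j hj ℬ hℬ
  exact hasModel_of_goodModule (O := 𝓞 E) ℬ ε hε hεgen (zz e x) hε1 hM f i hi

/-- In characteristic zero also the variable of weight `e` has a power in the ideal of the partial
derivatives. -/
theorem none_mem {K ι : Type} [Field K] [CharZero K] [Fintype ι] (e m : ℕ) (he : 1 ≤ e)
    (hm : 1 ≤ m) (P : MvPolynomial (Option ι) K) (hPd : P.IsWeightedHomogeneous (wt e) (m * e))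
    (hc : coeff (Finsupp.single none m) P ≠ 0) (hsm : SmoothW P) :
    X none ∈ (Ideal.span (Set.range fun j => pderiv j P)).radical := by
  refine none_mem_radical e m he hm P hPd hc _ ?_ hsm
  have h1 := hPd.sum_weight_X_mul_pderiv
  have h2 : (m * e) • P ∈ Ideal.span (Set.range fun j => pderiv j P) := by
    rw [← h1]
    refine Ideal.sum_mem _ fun i _ => Submodule.smul_of_tower_mem _ _
      (Ideal.mul_mem_left _ _ (Ideal.subset_span ⟨i, rfl⟩))
  have h3 : ((m * e : ℕ) : K) ≠ 0 := by
    rw [Nat.cast_ne_zero]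
    exact Nat.mul_ne_zero (by omega) (by omega)
  have h4 : P = C (((m * e : ℕ) : K)⁻¹) * ((m * e) • P) := by
    rw [nsmul_eq_mul, ← mul_assoc, ← map_natCast (C : K →+* MvPolynomial (Option ι) K), ← C_mul,
      inv_mul_cancel₀ h3, C_1, one_mul]
  have h5 := Ideal.mul_mem_left (Ideal.span (Set.range fun j => pderiv j P))
    (C (((m * e : ℕ) : K)⁻¹)) h2
  rw [← h4] at h5
  exact h5

section coeffs

variable {N e m : ℕ} {R : Type} [CommRing R]

theorem ne_single (s : CoefW N e m) : s.1 ≠ Finsupp.single none m := by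
  intro h
  have h1 := s.2.2
  rw [h, Finsupp.single_eq_same] at h1
  exact lt_irrefl _ h1

theorem coeff_wform (a : CoefW N e m → R) (s : CoefW N e m) : (wform a).coeff s.1 = a s := by
  classical
  unfold wform
  rw [coeff_add, X_pow_eq_monomial, coeff_monomial, if_neg (ne_single s).symm, zero_add,
    coeff_sum, Finset.sum_eq_single s]
  · rw [coeff_monomial, if_pos rfl]
  · intro j _ hj
    rw [coeff_monomial, if_neg]
    intro h
    exact hj (Subtype.ext h)
  · intro h
    exact absurd (Finset.mem_univ s) h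

theorem coeff_wform_top (a : CoefW N e m → R) :
    (wform a).coeff (Finsupp.single none m) = 1 := by
  classical
  unfold wform
  rw [coeff_add, X_pow_eq_monomial, coeff_monomial, if_pos rfl, coeff_sum, Finset.sum_eq_zero,
    add_zero]
  intro s _
  rw [coeff_monomial, if_neg (ne_single s)]

/-- The exponents of weight `m e`. -/
theorem cases_weight (he : 1 ≤ e) (s : Option (Fin (N + 1)) →₀ ℕ)
    (hs : Finsupp.weight (wt e) s = m * e) : s = Finsupp.single none m ∨ s none < m := by
  by_cases h : s none < m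
  · exact Or.inr h
  · left
    rw [weight_eq] at hs
    have h1 : m * e ≤ s none * e := Nat.mul_le_mul_right _ (not_lt.1 h)
    have h2 : s none * e = m * e := by omega
    have h3 : ∑ j, s (some j) = 0 := by omega
    have h4 : s none = m := Nat.eq_of_mul_eq_mul_right (by omega : 0 < e) h2
    ext o
    rcases o with _ | j
    · simp [h4]
    · have h5 := (Finset.sum_eq_zero_iff.1 h3) j (Finset.mem_univ j)
      simp [h5]

theorem coeff_wform' (a : CoefW N e m → R) (s : Option (Fin (N + 1)) →₀ ℕ)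
    (hs : Finsupp.weight (wt e) s ≠ m * e) : (wform a).coeff s = 0 := by
  classical
  have h0 : Finsupp.weight (wt e) (Finsupp.single none m : Option (Fin (N + 1)) →₀ ℕ) = m * e := by
    rw [weight_eq]
    simp
  unfold wform
  rw [coeff_add, X_pow_eq_monomial, coeff_monomial, if_neg, zero_add, coeff_sum,
    Finset.sum_eq_zero]
  · intro t _
    rw [coeff_monomial, if_neg]
    intro h
    apply hs
    rw [← h]
    exact t.2.1
  · intro h
    apply hs
    rw [← h]
    exact h0

theorem wform_homog (a : CoefW N e m → R) : (wform a).IsWeightedHomogeneous (wt e) (m * e) := by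
  intro s hs
  by_contra h
  exact hs (coeff_wform' a s h)

theorem wform_coeff (he : 1 ≤ e) (F : MvPolynomial (Option (Fin (N + 1))) R)
    (hF : F.IsWeightedHomogeneous (wt e) (m * e)) (h1 : F.coeff (Finsupp.single none m) = 1) :
    wform (fun s : CoefW N e m => F.coeff s.1) = F := by
  ext s
  by_cases hs : Finsupp.weight (wt e) s = m * e
  · rcases cases_weight he s hs with rfl | h
    · rw [coeff_wform_top, h1]
    · exact coeff_wform (fun s : CoefW N e m => F.coeff s.1) ⟨s, hs, h⟩
  · rw [coeff_wform' _ s hs]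
    exact (hF.coeff_eq_zero s hs).symm

theorem map_wform {S : Type} [CommRing S] (φ : R →+* S) (a : CoefW N e m → R) :
    map φ (wform a) = wform fun s => φ (a s) := by
  unfold wform
  rw [map_add, map_pow, map_X, map_sum]
  congr 1
  refine Finset.sum_congr rfl fun s _ => ?_
  rw [map_monomial]

end coeffs

/-- The coverings in a box. -/
def WBox {O ι : Type} [CommRing O] (ω : Module.Basis ι ℤ O) (N e m H : ℕ) :
    Set (MvPolynomial (Option (Fin (N + 1))) O) :=
  {F | (F.IsWeightedHomogeneous (wt e) (m * e) ∧ F.coeff (Finsupp.single none m) = 1) ∧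
    ∀ s, s ≠ Finsupp.single none m → ∀ i, |ω.repr (F.coeff s) i| ≤ H}

theorem wbox_inj {O ι : Type} [CommRing O] (ω : Module.Basis ι ℤ O) (N e m H : ℕ) (he : 1 ≤ e) :
    Set.InjOn (fun (F : MvPolynomial (Option (Fin (N + 1))) O) (p : CoefW N e m × ι) =>
      ω.repr (F.coeff p.1.1) p.2) (WBox ω N e m H) := by
  intro F hF G hG h
  rw [← wform_coeff he F hF.1.1 hF.1.2, ← wform_coeff he G hG.1.1 hG.1.2]
  congr 1
  funext s
  apply ω.repr.injective
  ext i
  exact congrFun h (s, i)

theorem wbox_finite {O ι : Type} [CommRing O] [Fintype ι] (ω : Module.Basis ι ℤ O)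
    (N e m H : ℕ) (he : 1 ≤ e) : (WBox ω N e m H).Finite ∧
      (WBox ω N e m H).ncard ≤ (2 * H + 1) ^ (Fintype.card (CoefW N e m) * Fintype.card ι) := by
  classical
  let T : Finset (CoefW N e m × ι → ℤ) := Fintype.piFinset fun _ => Finset.Icc (-(H : ℤ)) H
  have hmap : Set.MapsTo (fun (F : MvPolynomial (Option (Fin (N + 1))) O) (p : CoefW N e m × ι) =>
      ω.repr (F.coeff p.1.1) p.2) (WBox ω N e m H) (T : Set (CoefW N e m × ι → ℤ)) := by
    intro F hF
    rw [Finset.mem_coe, Fintype.mem_piFinset]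
    intro p
    rw [Finset.mem_Icc]
    exact abs_le.1 (hF.2 _ (ne_single p.1) _)
  have hfin : (WBox ω N e m H).Finite :=
    Set.Finite.of_injOn hmap (wbox_inj ω N e m H he) T.finite_toSet
  refine ⟨hfin, ?_⟩
  refine (Set.ncard_le_ncard_of_injOn _ hmap (wbox_inj ω N e m H he) T.finite_toSet).trans ?_
  rw [Set.ncard_coe_finset, Fintype.card_piFinset, Finset.prod_const, Finset.card_univ,
    Fintype.card_prod, Int.card_Icc]
  apply le_of_eq
  congr 1
  omega

/-- The counting of the good coverings. -/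
theorem countW (hC : S_CNTW) {O ι : Type} [CommRing O] [IsDomain O] [CharZero O] [Fintype ι]
    (ω : Module.Basis ι ℤ O) (N e m : ℕ) (hN : 1 ≤ N) (he : 1 ≤ e) (hm : 2 ≤ m) (hme : 3 ≤ m * e)
    (P : MvPolynomial (Option (Fin (N + 1))) O → Prop)
    (hP : ∀ a : CoefW N e m → O, GoodVecW a → P (wform a)) :
    ∃ c : ℝ, 0 < c ∧ ∃ H₀ : ℕ, ∀ H : ℕ, H₀ ≤ H →
      c * ((WBox ω N e m H).ncard : ℝ) ≤ ({F ∈ WBox ω N e m H | P F}.ncard : ℝ) := by
  obtain ⟨c, hc, H₀, h⟩ := hC O ι ω N e m hN he hm hme
  refine ⟨c, hc, H₀, fun H hH => ?_⟩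
  obtain ⟨hfin, hcard⟩ := wbox_finite ω N e m H he
  have h1 : c * ((WBox ω N e m H).ncard : ℝ) ≤
      c * (2 * (H : ℝ) + 1) ^ (Fintype.card (CoefW N e m) * Fintype.card ι) := by
    apply mul_le_mul_of_nonneg_left _ hc.le
    exact_mod_cast hcard
  refine h1.trans ((h H hH).trans ?_)
  have h2 : {a : CoefW N e m → O | (∀ s i, |ω.repr (a s) i| ≤ H) ∧ GoodVecW a}.ncard ≤
      {F ∈ WBox ω N e m H | P F}.ncard := by
    refine Set.ncard_le_ncard_of_injOn wform ?_ ?_ (hfin.subset (Set.sep_subset _ _))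
    · rintro a ⟨ha, hg⟩
      refine ⟨⟨⟨wform_homog a, coeff_wform_top a⟩, fun s hs i => ?_⟩, hP a hg⟩
      by_cases hw : Finsupp.weight (wt e) s = m * e
      · rcases cases_weight he s hw with rfl | h3
        · exact absurd rfl hs
        · have h4 := coeff_wform a ⟨s, hw, h3⟩
          rw [h4]
          exact ha _ _
      · rw [coeff_wform' a s hw, map_zero]
        simp
    · intro a _ b _ hab
      funext s
      rw [← coeff_wform a s, ← coeff_wform b s, hab]
  exact_mod_cast h2

end Pool.Agent.K3h75.NW
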