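import Pool.Agent.K3h75.NW.StmEW
import Pool.Agent.K3h75.NW.FinW

/-!
# Coverings with nodal reductions at large primes: models, and the counting of coverings
-/

set_option autoImplicit false
set_option linter.unusedSectionVars false
set_option linter.unusedVariables false

namespace Pool.Agent.K3h75.NW

open MvPolynomial Pool.Agent.R187.WC NumberField AlgebraicGeometry CategoryTheory
open Pool.Agent.W418 Pool.Agent.H918R2.Quad Pool.Agent.TH214.RM

/-- Models of smooth coverings with nodal reductions, over Dedekind domains. -/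
theorem model_nodEW (hGM : S_GMW) {E R : Type} [Field E] [CommRing R] [IsDedekindDomain R]
    [Algebra R E] [IsFractionRing R E] {n : ℕ} (hn : 1 ≤ n)
    (e m : ℕ) (he : 1 ≤ e) (hm : 1 ≤ m) (P : MvPolynomial (Option (Fin (n + 1))) R)
    (hPd : P.IsWeightedHomogeneous (wt e) (m * e)) (hc : coeff (Finsupp.single none m) P = 1)
    (hsm : SmoothW (map (algebraMap R E) P))
    (hnod : ∀ 𝔭 : Ideal R, 𝔭.IsPrime → 𝔭 ≠ ⊥ → NodW 𝔭 P) {B : Type} [CommRing B]
    [Algebra E B]
    (j : B →ₐ[E] (MvPolynomial (Option (Fin (n + 1))) E ⧸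
      Ideal.span {map (algebraMap R E) P}))
    (hj : Function.Injective j) (ℬ : ℕ → Submodule E B) [GradedAlgebra ℬ]
    (hℬ : ∀ d, (ℬ d).map j.toLinearMap =
      (weightedHomogeneousSubmodule E (wt (ι := Fin (n + 1)) e) (d * e)).map
        (Ideal.Quotient.mkₐ E (Ideal.span {map (algebraMap R E) P})).toLinearMap)
    {Y : Scheme.{0}} (f : Y ⟶ Spec (CommRingCat.of E)) (i : Y ≅ Proj ℬ)
    (hi : i.hom ≫ GO.projStr ℬ = f) : GO.HasModel R E f := by
  have hPd' : (map (algebraMap R E) P).IsWeightedHomogeneous (wt e) (m * e) := whom_map _ hPd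
  have hc' : coeff (Finsupp.single none m) (map (algebraMap R E) P) ≠ 0 := by
    rw [coeff_map, hc, map_one]
    exact one_ne_zero
  have hirr := irreducible_of_smoothW hn e m he hm _ hPd' hc' hsm
  obtain ⟨F, _, _, x, b, hx0, hrel, hgen, htb⟩ := exists_ffW e m he hm _ hPd' hc' hirr
  let _ : Algebra R F := ((algebraMap E F).comp (algebraMap R E)).toAlgebra
  have hst : IsScalarTower R E F := IsScalarTower.of_algebraMap_eq fun _ => rfl
  have hrel' : aeval x P = 0 := by
    have h1 := hrel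
    rw [aeval_map_algebraMap] at h1
    exact h1
  have hM : GoodModule R (zz e x) :=
    hGM R E F n m e hm he P hPd hc hsm hnod x hx0 hrel' hgen b htb
  obtain ⟨ε, hε, hεgen, hε1⟩ := exists_epsW e he x hx0 hgen b htb _ hirr.prime _ hPd' hrel j hj ℬ hℬ
  exact hasModel_of_goodModule (O := R) ℬ ε hε hεgen (zz e x) hε1 hM f i hi

theorem wbox_card {O ι : Type} [CommRing O] [Fintype ι] (ω : Module.Basis ι ℤ O)
    (N e m H : ℕ) (he : 1 ≤ e) :
    (2 * H + 1) ^ (Fintype.card (CoefW N e m) * Fintype.card ι) ≤ (WBox ω N e m H).ncard := by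
  classical
  let T : Finset (CoefW N e m × ι → ℤ) := Fintype.piFinset fun _ => Finset.Icc (-(H : ℤ)) H
  have hT : T.card = (2 * H + 1) ^ (Fintype.card (CoefW N e m) * Fintype.card ι) := by
    rw [Fintype.card_piFinset, Finset.prod_const, Finset.card_univ, Fintype.card_prod,
      Int.card_Icc]
    congr 1
    omega
  rw [← hT, ← Set.ncard_coe_finset]
  have hrep : ∀ (t : CoefW N e m × ι → ℤ) (s : CoefW N e m) (i : ι),
      ω.repr (∑ j, t (s, j) • ω j) i = t (s, i) := by
    intro t s i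
    rw [map_sum, Finsupp.finsetSum_apply, Finset.sum_eq_single i]
    · rw [map_smul, Module.Basis.repr_self, Finsupp.smul_apply, Finsupp.single_eq_same,
        smul_eq_mul, mul_one]
    · intro j _ hj
      rw [map_smul, Module.Basis.repr_self, Finsupp.smul_apply, Finsupp.single_eq_of_ne hj.symm,
        smul_zero]
    · intro h
      exact absurd (Finset.mem_univ i) h
  refine Set.ncard_le_ncard_of_injOn (fun t => wform fun s => ∑ j, t (s, j) • ω j) ?_ ?_
    (wbox_finite ω N e m H he).1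
  · intro t ht
    rw [Finset.mem_coe, Fintype.mem_piFinset] at ht
    refine ⟨⟨wform_homog _, coeff_wform_top _⟩, fun s hs i => ?_⟩
    by_cases hw : Finsupp.weight (wt e) s = m * e
    · rcases cases_weight he s hw with rfl | h3
      · exact absurd rfl hs
      · have h4 := coeff_wform (fun s : CoefW N e m => ∑ j, t (s, j) • ω j) ⟨s, hw, h3⟩
        rw [h4, hrep]
        exact abs_le.2 (Finset.mem_Icc.1 (ht _))
    · rw [coeff_wform' _ s hw, map_zero]
      simp
  · intro t _ t' _ h
    funext ⟨s, i⟩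
    rw [← hrep t s i, ← hrep t' s i, ← coeff_wform (fun s => ∑ j, t (s, j) • ω j) s,
      ← coeff_wform (fun s => ∑ j, t' (s, j) • ω j) s]
    exact congrArg (fun F => ω.repr (coeff s.1 F) i) h

/-- The counting of the exceptional coverings. -/
theorem countEW (hC : S_CNTEW) {O ι : Type} [CommRing O] [IsDomain O] [CharZero O] [Fintype ι]
    (ω : Module.Basis ι ℤ O) (N e m : ℕ) (hN : 1 ≤ N) (he : 1 ≤ e) (hm : 2 ≤ m)
    (P : ℕ → MvPolynomial (Option (Fin (N + 1))) O → Prop)
    (hP : ∀ (B : ℕ) (a : CoefW N e m → O), GoodVecEW B a → P B (wform a)) (ε : ℝ)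
    (hε : 0 < ε) : ∃ B H₀ : ℕ, ∀ H : ℕ, H₀ ≤ H →
      ({F ∈ WBox ω N e m H | ¬ P B F}.ncard : ℝ) ≤ ε * ((WBox ω N e m H).ncard : ℝ) := by
  obtain ⟨B, H₀, h⟩ := hC O ι ω N e m hN he hm ε hε
  refine ⟨B, H₀, fun H hH => ?_⟩
  have h1 : ε * (2 * (H : ℝ) + 1) ^ (Fintype.card (CoefW N e m) * Fintype.card ι) ≤
      ε * ((WBox ω N e m H).ncard : ℝ) := by
    apply mul_le_mul_of_nonneg_left _ hε.le
    exact_mod_cast wbox_card ω N e m H he
  refine le_trans ?_ ((h H hH).trans h1)
  have hfin : {a : CoefW N e m → O | (∀ s i, |ω.repr (a s) i| ≤ H) ∧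
      ¬ GoodVecEW B a}.Finite := by
    refine Set.Finite.of_injOn (f := wform) (t := WBox ω N e m H) ?_ ?_
      (wbox_finite ω N e m H he).1
    · rintro a ⟨ha, _⟩
      refine ⟨⟨wform_homog a, coeff_wform_top a⟩, fun s hs i => ?_⟩
      by_cases hw : Finsupp.weight (wt e) s = m * e
      · rcases cases_weight he s hw with rfl | h3
        · exact absurd rfl hs
        · have h4 := coeff_wform a ⟨s, hw, h3⟩
          rw [h4]
          exact ha _ _
      · rw [coeff_wform' a s hw, map_zero]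
        simp
    · intro a _ b _ hab
      funext s
      rw [← coeff_wform a s, ← coeff_wform b s, hab]
  have h2 : {F ∈ WBox ω N e m H | ¬ P B F}.ncard ≤
      {a : CoefW N e m → O | (∀ s i, |ω.repr (a s) i| ≤ H) ∧ ¬ GoodVecEW B a}.ncard := by
    refine Set.ncard_le_ncard_of_injOn
      (fun (F : MvPolynomial (Option (Fin (N + 1))) O) (s : CoefW N e m) => F.coeff s.1) ?_ ?_ hfin
    · rintro F ⟨hF, hPF⟩
      refine ⟨fun s i => hF.2 _ (ne_single s) _, fun hg => hPF ?_⟩
      have h3 := hP B _ hg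
      rwa [wform_coeff he F hF.1.1 hF.1.2] at h3
    · rintro F ⟨hF, _⟩ G ⟨hG, _⟩ h
      rw [← wform_coeff he F hF.1.1 hF.1.2, ← wform_coeff he G hG.1.1 hG.1.2]
      exact congrArg wform h
  exact_mod_cast h2

end Pool.Agent.K3h75.NW
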