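import Pool.Agent.K3h75.NW.AllW
import Pool.Agent.K3h75.NW.FinEW
import Pool.Agent.K3h16.NW.Cntew
import Pool.Agent.K3h37.NW.G0EW

/-!
# Coverings with nodal reductions at large primes: summary

Bricks: counting (helper16), passage to prime ideals (helper37).
-/

set_option autoImplicit false

namespace Pool.Agent.K3h75.NW

theorem cntew_ok : S_CNTEW :=
  Pool.Agent.K3h16.NW.t_CNTEW Pool.Agent.K3h75.ND.ek_ok e1w_ok e2w_ok
    Pool.Agent.K3h41.ND.t_NRM1 Pool.Agent.K3h41.ND.t_NRM2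

theorem g0ew_ok : S_G0EW := Pool.Agent.K3h37.NW.t_G0EW

end Pool.Agent.K3h75.NW
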