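import Pool.Agent.K3h75.NW.CoreW
import Pool.Agent.K3h75.NW.FinW
import Pool.Agent.K3h75.ND.AllK
import Pool.Agent.K3h93.NW.DFW
import Pool.Agent.K3h13.NW.Lmnw
import Pool.Agent.K3h72.NW.GMW
import Pool.Agent.K3h79.NW.E1W
import Pool.Agent.K3h64.NW.GNDW
import Pool.Agent.K3h40.NW.E2W
import Pool.Agent.K3h68.NW.SMPW
import Pool.Agent.K3h40.NW.CNTW
import Pool.Agent.K3h77.NW.G0W

/-!
# Coverings with nodal reductions: summary

Bricks: chart and fractions (helper93), local modules (helper13), good modules (helper72), singular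
members of pencils (helper79), generic pencils (helper64), elimination and counting (helper40),
smooth coverings modulo all primes (helper68), passage to prime ideals (helper77); and the bricks of
`Pool.Agent.K3h75.ND.All`.
-/

set_option autoImplicit false

namespace Pool.Agent.K3h75.NW

theorem gmw_ok : S_GMW :=
  Pool.Agent.K3h72.NW.t_GMW (Pool.Agent.K3h13.NW.t_LMNW (t_COREW
    (Pool.Agent.K3h54.ND.t_EXP Pool.Agent.K3h17.ND.t_PAR)
    (Pool.Agent.K3h94.ND.t_REG1 Pool.Agent.K3h41.ND.t_JR1 Pool.Agent.K3h41.ND.t_JR2)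
    (Pool.Agent.K3h69.ND.t_REG2 Pool.Agent.K3h41.ND.t_JR1 Pool.Agent.K3h41.ND.t_JR2)
    Pool.Agent.K3h93.NW.t_DFW))

theorem e1w_ok : S_E1W := Pool.Agent.K3h79.NW.t_E1W

theorem e2w_ok : S_E2W := Pool.Agent.K3h40.NW.t_E2W Pool.Agent.K3h64.NW.t_GNDW

theorem cntw_ok : S_CNTW :=
  Pool.Agent.K3h40.NW.CN.t_CNTW Pool.Agent.K3h75.ND.ek_ok e1w_ok e2w_ok
    Pool.Agent.K3h68.NW.t_SMPW Pool.Agent.K3h41.ND.t_NRM1 Pool.Agent.K3h41.ND.t_NRM2

theorem g0w_ok : S_G0W := Pool.Agent.K3h77.NW.t_G0W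

end Pool.Agent.K3h75.NW
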