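import Pool.Agent.K3h75.NW.Stm
import Pool.Agent.K3h75.ND.Core

/-!
# Coverings with nodal reductions: the local rings of the modification are regular
-/

set_option autoImplicit false
set_option linter.unusedSectionVars false
set_option linter.unusedVariables false

open scoped Pointwise

namespace Pool.Agent.K3h75.NW

open MvPolynomial Pool.Agent.H918R2.Quad Pool.Agent.H945R2.E Pool.Agent.TH214.RM
open Pool.Agent.W418 Pool.Agent.W418.LU2 Pool.Agent.H945R2.D Pool.Agent.R187.WC
open Pool.Agent.K3h75.ND

/-- Some coordinate of weight one is nonzero. -/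
theorem exists_x_neW {R F : Type} [CommRing R] [Field F] [Algebra R F] {n : ℕ} (π : R)
    (P : MvPolynomial (Option (Fin (n + 1))) R) (m e r : ℕ) (hm : 1 ≤ m) (he : 1 ≤ e)
    (hP : P.IsWeightedHomogeneous (wt e) (m * e))
    (hc : IsUnit (coeff (Finsupp.single none m) P)) (v : Option (Fin (n + 1)) → F)
    (hrel : aeval v P = 0) (E : ℕ) (hE : 1 ≤ E)
    (f : F) (hf : f ≠ 0) (hfP : f ∈ Submodule.span R (∏ k, PsiW π v P m e E r k)) :
    ∃ s, v (some s) ≠ 0 := by
  classical
  by_contra hcon
  push Not at hcon
  have hv : v none = 0 := by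
    have h1 : aeval v P = algebraMap R F (coeff (Finsupp.single none m) P) * v none ^ m := by
      rw [aeval_def, eval₂_eq', Finset.sum_eq_single (Finsupp.single none m)]
      · congr 1
        rw [Fintype.prod_option]
        simp
      · intro d hd hdm
        have h2 : Finsupp.weight (wt e) d = m * e := by
          by_contra hne
          exact (mem_support_iff.1 hd) (hP.coeff_eq_zero d hne)
        rw [weight_eq] at h2
        have h3 : ∃ j, d (some j) ≠ 0 := by
          by_contra h4
          push Not at h4
          apply hdm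
          have h5 : d none = m := by
            rw [Finset.sum_eq_zero (fun j _ => h4 j), add_zero] at h2
            exact Nat.eq_of_mul_eq_mul_right he h2
          ext o
          rcases o with _ | j
          · rw [h5]
            simp
          · rw [h4 j]
            simp
        obtain ⟨j, hj⟩ := h3
        rw [Finset.prod_eq_zero (Finset.mem_univ (some j)), mul_zero]
        rw [hcon j, zero_pow hj]
      · intro h2
        rw [notMem_support_iff] at h2
        rw [h2, map_zero, zero_mul]
    rw [hrel] at h1
    have h2 : algebraMap R F (coeff (Finsupp.single none m) P) ≠ 0 := (hc.map _).ne_zero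
    exact eq_zero_of_pow_eq_zero ((mul_eq_zero.1 h1.symm).resolve_left h2)
  apply hf
  have h1 : ∀ g ∈ ∏ k, PsiW π v P m e E r k, g = 0 := by
    intro g hg
    rw [Fintype.prod_option, Set.mem_mul] at hg
    obtain ⟨a, ha, b, hb, rfl⟩ := hg
    have ha' : a ∈ Set.range (zz e v) ^ E := ha
    obtain ⟨E', rfl⟩ : ∃ m, E = m + 1 := ⟨E - 1, by omega⟩
    rw [pow_succ, Set.mem_mul] at ha'
    obtain ⟨a₁, _, _, ⟨i, rfl⟩, rfl⟩ := ha'
    have h2 : zz e v i = 0 := by
      rcases i with φ | u
      · change ∏ k, v (some (φ k)) = 0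
        exact Finset.prod_eq_zero (Finset.mem_univ (⟨0, he⟩ : Fin e)) (hcon _)
      · exact hv
    simp only [h2, mul_zero, zero_mul]
  have h2 : (∏ k, PsiW π v P m e E r k) ⊆ ((⊥ : Submodule R F) : Set F) := by
    intro g hg
    rw [h1 g hg]
    exact Submodule.zero_mem _
  have h3 := Submodule.span_le.2 h2 hfP
  exact (Submodule.mem_bot R).1 h3

theorem opt_cases {n : ℕ} (s : Fin (n + 1)) (l : Option (Fin (n + 1))) :
    l = some s ∨ ∃ l' : Option {j : Fin (n + 1) // j ≠ s}, l'.map Subtype.val = l := by
  rcases l with _ | j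
  · exact Or.inr ⟨none, rfl⟩
  · by_cases h : j = s
    · exact Or.inl (by rw [h])
    · exact Or.inr ⟨some ⟨j, h⟩, rfl⟩

theorem t_COREW : S_EXP → S_REG1 → S_REG2 → S_DFW → S_COREW := by
  intro hEXP hREG1 hREG2 hDF R F _ _ _ _ _ n 𝒪 hloc hR hRU π hπ m e hm he P hP hc hnod r hr v hrel
    hind E' hE' f hf hfP hfO hchart
  have hP0 : P ≠ 0 := by
    rintro rfl
    rw [coeff_zero] at hc
    exact not_isUnit_zero hc
  obtain ⟨s₀, hs₀⟩ := exists_x_neW π P m e r hm he hP hc v hrel E' hE' f hf hfP
  have hinj : Function.Injective (algebraMap R F) := by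
    obtain ⟨j₀, hj₀⟩ := hind s₀ hs₀
    exact hj₀.algebraMap_injective
  have hπF : algebraMap R F π ≠ 0 := fun h =>
    hπ.ne_zero (hinj (by rw [h, map_zero]))
  obtain ⟨s, hs, htO, hdich, hfrac⟩ := hDF R F n 𝒪 hloc hR π hπF m e hm he P hP hc r v hrel E' hE'
    f hf hfP hfO hchart
  set t : Option (Fin (n + 1)) → F := tv e v s with ht
  have hts : t (some s) = 1 := by
    simp only [ht, tv, wt_some, pow_one]
    exact div_self hs
  set t' : Option {j : Fin (n + 1) // j ≠ s} → F := fun o => t (o.map Subtype.val) with ht'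
  have hind' : ∃ j₀ : Option {j : Fin (n + 1) // j ≠ s}, AlgebraicIndependent R
      (fun j : {j : Option {j : Fin (n + 1) // j ≠ s} // j ≠ j₀} => t' j) := by
    obtain ⟨j₀, hj₀⟩ := hind s hs
    refine ⟨j₀, ?_⟩
    have hwt : ∀ l : Option {j : Fin (n + 1) // j ≠ s}, wt e (l.map Subtype.val) = wt e l := by
      intro l
      cases l <;> rfl
    have h1 : (fun j : {j : Option {j : Fin (n + 1) // j ≠ s} // j ≠ j₀} => t' j) =
        fun i : {j : Option {j : Fin (n + 1) // j ≠ s} // j ≠ j₀} =>
          v ((i : Option {j : Fin (n + 1) // j ≠ s}).map Subtype.val) /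
            v (some s) ^ wt e (i : Option {j : Fin (n + 1) // j ≠ s}) := by
      funext i
      simp only [ht', ht, tv, hwt]
    rw [h1]
    exact hj₀
  set E : MvPolynomial (Option {j : Fin (n + 1) // j ≠ s}) R := dehW s P with hE
  have hdeh : ∀ G : MvPolynomial (Option (Fin (n + 1))) R, aeval t' (dehW s G) = aeval t G :=
    fun G => aeval_dehW s t hts G
  have hHt : aeval t P = 0 := by
    have h1 : t = fun j => v j * ((v (some s))⁻¹) ^ wt e j := by
      funext j
      simp only [ht, tv]
      rw [div_eq_mul_inv, inv_pow]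
    rw [h1, aeval_scaleW e v _ _ P hP, hrel, zero_mul]
  have hEt : aeval t' E = 0 := by rw [hE, hdeh, hHt]
  have hE0 : E ≠ 0 := dehW_ne_zero e s P hP0 _ hP
  have heW : ∀ w : MvPolynomial (Option {j : Fin (n + 1) // j ≠ s}) R, aeval t' w ∈ 𝒪 := by
    intro w
    induction w using MvPolynomial.induction_on with
    | C r => rw [aeval_C]; exact hR r
    | add p q hp hq => rw [map_add]; exact 𝒪.add_mem hp hq
    | mul_X p j hp => rw [map_mul, aeval_X]; exact 𝒪.mul_mem hp (htO _)
  have hyE : ∀ l : Option {j : Fin (n + 1) // j ≠ s},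
      aeval t' (pderiv l E) = aeval t (pderiv (l.map Subtype.val) P) := by
    intro l
    rw [hE, pderiv_dehW, hdeh]
  -- Euler's formula
  have hEuler : aeval t (pderiv (some s) P) =
      - ∑ l : Option {j : Fin (n + 1) // j ≠ s}, ((wt e (l.map Subtype.val) : ℕ) : F) *
        (t' l * aeval t (pderiv (l.map Subtype.val) P)) := by
    have h1 := congrArg (aeval t : MvPolynomial (Option (Fin (n + 1))) R →ₐ[R] F)
      hP.sum_weight_X_mul_pderiv
    rw [map_sum, map_nsmul, hHt, smul_zero] at h1
    simp only [nsmul_eq_mul, map_mul, map_natCast, aeval_X] at h1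
    rw [Fintype.sum_option, ← Finset.add_sum_erase _ _ (Finset.mem_univ s), hts, one_mul,
      wt_some e s, Nat.cast_one, one_mul] at h1
    rw [eq_neg_iff_add_eq_zero, ← h1, Fintype.sum_option]
    rw [Finset.sum_subtype (Finset.univ.erase s) (p := fun j => j ≠ s)
      (fun j => by simp) (fun j => ((wt e (some j) : ℕ) : F) *
        (t (some j) * aeval t (pderiv (some j) P)))]
    simp only [Option.map_none, Option.map_some, ht']
    ring
  let Q : Ideal (MvPolynomial (Option {j : Fin (n + 1) // j ≠ s}) R) :=
    primeOf hloc ((aeval t' : MvPolynomial (Option {j : Fin (n + 1) // j ≠ s}) R →ₐ[R] F) :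
      _ →+* F) heW
  have hQp : Q.IsPrime := primeOf_isPrime hloc _ heW
  have hQ : ∀ w, w ∈ Q ↔ ¬ U 𝒪 (aeval t' w) := fun w => mem_primeOf hloc _ heW w
  have hEQ : E ∈ Q := by
    rw [hQ, hEt]
    exact not_U_zero
  have hCQ : ∀ r : R, C r ∈ Q ↔ ¬ IsUnit r := by
    intro r
    rw [hQ, aeval_C]
    refine not_congr ⟨hRU r, fun h => ?_⟩
    obtain ⟨u, rfl⟩ := h
    have h1 : algebraMap R F (u : R) * algebraMap R F ((u⁻¹ : Rˣ) : R) = 1 := by
      rw [← map_mul, Units.mul_inv, map_one]
    refine ⟨left_ne_zero_of_mul_eq_one h1, hR _, ?_⟩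
    rw [inv_eq_of_mul_eq_one_right h1]
    exact hR _
  by_cases hsm : ∃ j, pderiv j E ∉ Q
  · -- a smooth point
    obtain ⟨j, hj⟩ := hsm
    rw [hQ, not_not] at hj
    refine smooth_point 𝒪 hloc E hE0 t' hEt heW hind' j hj ?_
    refine hfrac (MvPolynomial (Option {j : Fin (n + 1) // j ≠ s}) R) (aeval t') heW ?_
      (fun _ => 1) (fun _ => one_ne_zero) ?_ ?_ ?_
    · intro i
      rcases opt_cases s i with rfl | ⟨i', rfl⟩
      · refine ⟨1, ?_⟩
        rw [map_one]
        exact hts
      · exact ⟨X i', by rw [aeval_X]⟩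
    · intro _ l
      refine ⟨dehW s (pderiv l P), ?_⟩
      rw [one_mul, hdeh]
    · intro m
      refine ⟨C (π ^ (m.val + 1)), ?_⟩
      rw [one_mul, aeval_C]
    · intro m
      left
      refine ⟨j.map Subtype.val, ?_⟩
      rw [div_one, ← hyE]
      exact hj
  · -- a singular point of the special fibre
    have hhes : (hess E).det ∉ Q := (hnod s Q hQp hEQ hCQ).resolve_left hsm
    push Not at hsm
    have hπQ : C π ∈ Q := (hCQ π).2 hπ.not_isUnit
    have hmem : (1 : MvPolynomial (Option {j : Fin (n + 1) // j ≠ s}) R) * C (π ^ r) ∈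
        Ideal.span (insert E (Set.range fun j => pderiv j E)) := by
      obtain ⟨k, hk⟩ := hr s
      set I := Ideal.span (insert E (Set.range fun j => pderiv j E)) with hI
      have hEI : E ∈ I := Ideal.subset_span (Set.mem_insert _ _)
      have hpI : ∀ j, pderiv j E ∈ I := fun j =>
        Ideal.subset_span (Set.mem_insert_of_mem _ ⟨j, rfl⟩)
      have hle : Ideal.span (Set.range fun j => pderiv j P) ≤ I.comap
          ((aeval (tauW s) : MvPolynomial (Option (Fin (n + 1))) R →ₐ[R]
            MvPolynomial (Option {j : Fin (n + 1) // j ≠ s}) R) : _ →+* _) := by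
        rw [Ideal.span_le]
        rintro _ ⟨j, rfl⟩
        exact all_pderiv_memW e P (m * e) hP s I hEI hpI j
      have h2 : (aeval (tauW s) : MvPolynomial (Option (Fin (n + 1))) R →ₐ[R]
          MvPolynomial (Option {j : Fin (n + 1) // j ≠ s}) R)
          (C (π ^ r) * X (some s) ^ k) ∈ I := hle hk
      rw [map_mul, map_pow _ (X (some s)), aeval_X, tauW_self, one_pow, mul_one, aeval_C] at h2
      rw [one_mul]
      exact h2
    have h1Q : (1 : MvPolynomial (Option {j : Fin (n + 1) // j ≠ s}) R) ∉ Q :=
      (Ideal.ne_top_iff_one Q).1 hQp.ne_top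
    obtain ⟨k, h, u, b, hk1, hkr, hhQ, huQ, hbQ, heq⟩ := hEXP R _ π hπ E Q hπQ hEQ hsm hhes r 1
      h1Q hmem
    have hND : NodeData 𝒪 π E t' k h u b :=
      { loc := hloc
        R_mem := hR
        R_unit := hRU
        irr := hπ
        t_mem := fun l => htO _
        rel := hEt
        ind := hind'
        crit := fun l => (hQ _).1 (hsm l)
        hes := by rw [hQ, not_not] at hhes; exact hhes
        h_unit := by rw [hQ, not_not] at hhQ; exact hhQ
        u_unit := by rw [hQ, not_not] at huQ; exact huQ
        b_unit := by rw [hQ, not_not] at hbQ; exact hbQ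
        eq := heq }
    have hwO : ∀ a : ℕ, ((a : ℕ) : F) ∈ 𝒪 := fun a => natCast_mem 𝒪 a
    refine node_point hREG1 hREG2 𝒪 π E t' k h u b hND r hk1 hkr hπF ?_ ?_
    · intro m hm
      rcases hdich m hm with h1 | ⟨i, hi, hil, hiτ⟩
      · left
        intro l
        rw [hyE]
        exact h1 _
      · right
        rcases opt_cases s i with rfl | ⟨i', rfl⟩
        · -- some `y l / y i` is a unit
          have h1 : (1 : F) = - ∑ l : Option {j : Fin (n + 1) // j ≠ s},
              ((wt e (l.map Subtype.val) : ℕ) : F) * (t' l *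
              (aeval t (pderiv (l.map Subtype.val) P) / aeval t (pderiv (some s) P))) := by
            have h2 := congrArg (fun z => z / aeval t (pderiv (some s) P)) hEuler
            rw [div_self hi] at h2
            rw [h2, neg_div, Finset.sum_div]
            congr 1
            refine Finset.sum_congr rfl fun l _ => ?_
            rw [mul_div_assoc, mul_div_assoc]
          have h2 : U 𝒪 (∑ l : Option {j : Fin (n + 1) // j ≠ s},
              ((wt e (l.map Subtype.val) : ℕ) : F) * (t' l *
              (aeval t (pderiv (l.map Subtype.val) P) / aeval t (pderiv (some s) P)))) := by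
            apply U.neg'
            rw [← h1]
            exact U_one
          obtain ⟨l₀, _, hl₀⟩ := exists_U_sum hloc Finset.univ _ (fun l _ =>
            𝒪.mul_mem (hwO _) (𝒪.mul_mem (htO _) (hil _))) h2
          have h3 : U 𝒪 (aeval t (pderiv (l₀.map Subtype.val) P) /
              aeval t (pderiv (some s) P)) :=
            (hl₀.of_mul_right (hwO _) (𝒪.mul_mem (htO _) (hil _))).of_mul_right (htO _) (hil _)
          have h4 : aeval t (pderiv (l₀.map Subtype.val) P) ≠ 0 := (div_ne_zero_iff.1 h3.1).1
          have h5 : ∀ z : F, z / aeval t (pderiv (l₀.map Subtype.val) P) =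
              (z / aeval t (pderiv (some s) P)) *
              (aeval t (pderiv (l₀.map Subtype.val) P) / aeval t (pderiv (some s) P))⁻¹ := by
            intro z
            field_simp
          refine ⟨l₀, ?_, ?_, ?_⟩
          · rw [hyE]
            exact h4
          · intro l
            rw [hyE, hyE, h5]
            exact 𝒪.mul_mem (hil _) h3.2.2
          · rw [hyE, h5]
            exact 𝒪.mul_mem hiτ h3.2.2
        · refine ⟨i', ?_, ?_, ?_⟩
          · rw [hyE]
            exact hi
          · intro l
            rw [hyE, hyE]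
            exact hil _
          · rw [hyE]
            exact hiτ
    · intro W _ _ eW heWO htW ρ hρ hyρ hπρ hUρ
      refine hfrac W eW heWO ?_ ρ hρ ?_ hπρ ?_
      · intro i
        rcases opt_cases s i with rfl | ⟨i', rfl⟩
        · refine ⟨1, ?_⟩
          rw [map_one]
          exact hts
        · exact htW i'
      · intro m l
        rcases opt_cases s l with rfl | ⟨l', rfl⟩
        · choose w hw using fun j : Option {j : Fin (n + 1) // j ≠ s} => hyρ m j
          choose z hz using fun j : Option {j : Fin (n + 1) // j ≠ s} => htW j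
          refine ⟨- ∑ j : Option {j : Fin (n + 1) // j ≠ s},
            ((wt e (j.map Subtype.val) : ℕ) : W) * (z j * w j), ?_⟩
          rw [hEuler, map_neg, map_sum, mul_neg, Finset.mul_sum]
          congr 1
          refine Finset.sum_congr rfl fun j _ => ?_
          rw [map_mul, map_mul, map_natCast, ← hz j, ← hyE, hw j]
          ring
        · obtain ⟨w, hw⟩ := hyρ m l'
          exact ⟨w, by rw [← hw, hyE]⟩
      · intro m
        rcases hUρ m with ⟨l, hl⟩ | h1
        · left
          refine ⟨l.map Subtype.val, ?_⟩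
          rw [hyE] at hl
          exact hl
        · right
          exact h1

end Pool.Agent.K3h75.NW
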