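import Pool.Agent.K3h75.ND.Stm
import Pool.Agent.R187.WC.Fin

/-!
# Coverings of projective spaces with nodal reductions: statements (geometry)

`P(x_0, ..., x_n, w)` is weighted homogeneous of weight `m e`, where the `x_i = X (some i)` have
weight one and `w = X none` has weight `e`; the coefficient of `w ^ m` is a unit.
-/

set_option autoImplicit false

open scoped Pointwise

namespace Pool.Agent.K3h75.NW

open MvPolynomial Pool.Agent.H918R2.Quad Pool.Agent.H945R2.E Pool.Agent.TH214.RM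
open Pool.Agent.W418 Pool.Agent.R187.WC Pool.Agent.K3h75.ND

/-- All critical points of `P` over `𝔭` on `P = 0` are nondegenerate. -/
def NodW {O ι : Type} [CommRing O] [Fintype ι] [DecidableEq ι] (𝔭 : Ideal O)
    (P : MvPolynomial (Option ι) O) : Prop :=
  ∀ (s : ι) (Q : Ideal (MvPolynomial (Option {j : ι // j ≠ s}) O)), Q.IsPrime →
    (∀ r : O, C r ∈ Q ↔ r ∈ 𝔭) → dehW s P ∈ Q →
    (∃ j, pderiv j (dehW s P) ∉ Q) ∨ (hess (dehW s P)).det ∉ Q

/-- The coordinates of the chart `x_s ≠ 0`. -/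
def tv {ι F : Type} [Field F] (e : ℕ) (v : Option ι → F) (s : ι) : Option ι → F :=
  fun o => v o / v (some s) ^ wt e o

/-- Generators of the ideal generated by the partial derivatives and `π ^ (j + 1)`, in weight
`m e`; and the forms of weight `E e`. -/
def PsiW {R F ι : Type} [CommRing R] [Field F] [Algebra R F] (π : R) (v : Option ι → F)
    (P : MvPolynomial (Option ι) R) (m e E r : ℕ) : Option (Fin r) → Set F
  | none => Set.range (zz e v) ^ E
  | some j => {y | ∃ i k : ι, y = v (some k) * aeval v (pderiv (some i) P)} ∪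
      {y | ∃ φ : Fin e → ι, y = (∏ k, v (some (φ k))) * aeval v (pderiv none P)} ∪
      {y | ∃ g ∈ Set.range (zz e v) ^ m, y = algebraMap R F (π ^ (j.val + 1)) * g}

/-- **DFW**: the chart, the dichotomy and the fractions. -/
def S_DFW : Prop := ∀ (R F : Type) [CommRing R] [Field F] [Algebra R F] (n : ℕ) (𝒪 : Subring F),
  IsLoc 𝒪 → (∀ r : R, algebraMap R F r ∈ 𝒪) → ∀ π : R, algebraMap R F π ≠ 0 →
  ∀ m e : ℕ, 1 ≤ m → 1 ≤ e → ∀ P : MvPolynomial (Option (Fin (n + 1))) R,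
  P.IsWeightedHomogeneous (wt e) (m * e) → IsUnit (coeff (Finsupp.single none m) P) →
  ∀ (r : ℕ) (v : Option (Fin (n + 1)) → F), aeval v P = 0 → ∀ E : ℕ, 1 ≤ E → ∀ f : F, f ≠ 0 →
  f ∈ Submodule.span R (∏ k, PsiW π v P m e E r k) →
  (∀ h ∈ ∏ k, PsiW π v P m e E r k, h / f ∈ 𝒪) →
  IsLocOf 𝒪 (chart R (Submodule.span R (∏ k, PsiW π v P m e E r k)) f) →
  ∃ s, v (some s) ≠ 0 ∧ (∀ o, tv e v s o ∈ 𝒪) ∧
    (∀ m' : ℕ, m' < r →
      (∀ l, aeval (tv e v s) (pderiv l P) / algebraMap R F (π ^ (m' + 1)) ∈ 𝒪) ∨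
      ∃ i, aeval (tv e v s) (pderiv i P) ≠ 0 ∧
        (∀ l, aeval (tv e v s) (pderiv l P) / aeval (tv e v s) (pderiv i P) ∈ 𝒪) ∧
        algebraMap R F (π ^ (m' + 1)) / aeval (tv e v s) (pderiv i P) ∈ 𝒪) ∧
    ∀ (W : Type) [CommRing W] [Algebra R W] (eW : W →ₐ[R] F), (∀ w, eW w ∈ 𝒪) →
      (∀ o, ∃ w, tv e v s o = eW w) → ∀ ρ : Fin r → F, (∀ j, ρ j ≠ 0) →
      (∀ j l, ∃ w, aeval (tv e v s) (pderiv l P) = ρ j * eW w) →
      (∀ j, ∃ w, algebraMap R F (π ^ (j.val + 1)) = ρ j * eW w) →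
      (∀ j, (∃ l, U 𝒪 (aeval (tv e v s) (pderiv l P) / ρ j)) ∨
        U 𝒪 (algebraMap R F (π ^ (j.val + 1)) / ρ j)) →
      ∀ y ∈ 𝒪, ∃ a b : W, U 𝒪 (eW b) ∧ y = eW a / eW b

/-- **COREW**: the local rings of the modification are regular. -/
def S_COREW : Prop := ∀ (R F : Type) [CommRing R] [IsDomain R] [IsDiscreteValuationRing R]
  [Field F] [Algebra R F] (n : ℕ) (𝒪 : Subring F), IsLoc 𝒪 → (∀ r : R, algebraMap R F r ∈ 𝒪) →
  (∀ r : R, U 𝒪 (algebraMap R F r) → IsUnit r) → ∀ π : R, Irreducible π →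
  ∀ m e : ℕ, 1 ≤ m → 1 ≤ e → ∀ P : MvPolynomial (Option (Fin (n + 1))) R,
  P.IsWeightedHomogeneous (wt e) (m * e) → IsUnit (coeff (Finsupp.single none m) P) →
  (∀ (s : Fin (n + 1)) (Q : Ideal (MvPolynomial (Option {j // j ≠ s}) R)), Q.IsPrime →
    dehW s P ∈ Q → (∀ r : R, C r ∈ Q ↔ ¬ IsUnit r) → (∃ j, pderiv j (dehW s P) ∉ Q) ∨
      (hess (dehW s P)).det ∉ Q) →
  ∀ r : ℕ, (∀ i : Fin (n + 1), ∃ k : ℕ,
    (C (π ^ r) * X (some i) ^ k : MvPolynomial (Option (Fin (n + 1))) R) ∈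
    (Ideal.span (Set.range fun j => pderiv j P) :
      Ideal (MvPolynomial (Option (Fin (n + 1))) R))) →
  ∀ v : Option (Fin (n + 1)) → F, aeval v P = 0 →
  (∀ s, v (some s) ≠ 0 → ∃ j₀ : Option {i : Fin (n + 1) // i ≠ s},
    AlgebraicIndependent R (fun i : {i : Option {i : Fin (n + 1) // i ≠ s} // i ≠ j₀} =>
      v ((i : Option {i : Fin (n + 1) // i ≠ s}).map Subtype.val) /
        v (some s) ^ wt e (i : Option {i : Fin (n + 1) // i ≠ s}))) →
  ∀ E : ℕ, 1 ≤ E → ∀ f : F, f ≠ 0 → f ∈ Submodule.span R (∏ k, PsiW π v P m e E r k) →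
  (∀ h ∈ ∏ k, PsiW π v P m e E r k, h / f ∈ 𝒪) →
  IsLocOf 𝒪 (chart R (Submodule.span R (∏ k, PsiW π v P m e E r k)) f) → IsRegularLocalRing 𝒪

/-- **LMNW**: local modules at nodal primes. -/
def S_LMNW : Prop := ∀ (O R K F : Type) [CommRing O] [IsDomain O] [CommRing R] [IsDomain R]
  [Field K] [Field F] [Algebra O R] [Algebra R K] [Algebra O F] [Algebra R F] [Algebra K F]
  [IsScalarTower O R F] [IsScalarTower R K F] (𝔭 : Ideal O) [𝔭.IsPrime]
  [IsLocalization.AtPrime R 𝔭] [IsDiscreteValuationRing R] [IsFractionRing R K] (n m e : ℕ),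
  1 ≤ m → 1 ≤ e → ∀ P : MvPolynomial (Option (Fin (n + 1))) O,
  P.IsWeightedHomogeneous (wt e) (m * e) → coeff (Finsupp.single none m) P = 1 → NodW 𝔭 P →
  ∀ c : O, c ≠ 0 → (∀ i : Fin (n + 1), ∃ k : ℕ,
    (C c * X (some i) ^ k : MvPolynomial (Option (Fin (n + 1))) O) ∈
    (Ideal.span (Set.range fun j => pderiv j P) :
      Ideal (MvPolynomial (Option (Fin (n + 1))) O))) →
  ∀ x : Option (Fin (n + 1)) → F, x (some 0) = 1 → aeval x P = 0 →
  IntermediateField.adjoin K (Set.range x) = ⊤ → ∀ b : Fin n → F, IsTranscendenceBasis K b →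
  LocMod 𝔭 (zz e x)

/-- **GMW**: good modules for smooth coverings with nodal reductions. -/
def S_GMW : Prop := ∀ (O K F : Type) [CommRing O] [IsDedekindDomain O] [Field K] [Algebra O K]
  [IsFractionRing O K] [Field F] [Algebra K F] [Algebra O F] [IsScalarTower O K F] (n m e : ℕ),
  1 ≤ m → 1 ≤ e → ∀ P : MvPolynomial (Option (Fin (n + 1))) O,
  P.IsWeightedHomogeneous (wt e) (m * e) → coeff (Finsupp.single none m) P = 1 →
  SmoothW (map (algebraMap O K) P) → (∀ 𝔭 : Ideal O, 𝔭.IsPrime → 𝔭 ≠ ⊥ → NodW 𝔭 P) →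
  ∀ x : Option (Fin (n + 1)) → F, x (some 0) = 1 → aeval x P = 0 →
  IntermediateField.adjoin K (Set.range x) = ⊤ → ∀ b : Fin n → F, IsTranscendenceBasis K b →
  GoodModule O (zz e x)

end Pool.Agent.K3h75.NW
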