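import Pool.Agent.K3h75.NW.FinW
import Pool.Agent.K3h75.ND.StmA

/-!
# Affine coverings: statements
-/

set_option autoImplicit false

namespace Pool.Agent.K3h75.NW

open MvPolynomial Pool.Agent.R187.WC NumberField Pool.Agent.W418

/-- Substitute `X (some 0) = 1`. -/
noncomputable def dhW {R : Type} [CommRing R] {n : ℕ}
    (G : MvPolynomial (Option (Fin (n + 1))) R) : MvPolynomial (Option (Fin n)) R :=
  aeval (fun o : Option (Fin (n + 1)) => o.elim (X none)
    (Fin.cases (motive := fun _ => MvPolynomial (Option (Fin n)) R) 1 fun i => X (some i))) G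

/-- **AFFW**: the function field of an affine covering. -/
def S_AFFW : Prop := ∀ (E : Type) [Field E] (n e m : ℕ), 1 ≤ e → 1 ≤ m →
  ∀ G : MvPolynomial (Option (Fin (n + 1))) E, G.IsWeightedHomogeneous (wt e) (m * e) →
  coeff (Finsupp.single none m) G ≠ 0 → Irreducible G → Irreducible (dhW G) ∧
  ∃ (F : Type) (_ : Field F) (_ : Algebra E F) (x : Option (Fin (n + 1)) → F) (b : Fin n → F),
    x (some 0) = 1 ∧ aeval x G = 0 ∧ IntermediateField.adjoin E (Set.range x) = ⊤ ∧
    IsTranscendenceBasis E b ∧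
    Nonempty (F ≃+* FractionRing (MvPolynomial (Option (Fin n)) E ⧸ Ideal.span {dhW G}))

/-- **HMW**: from a good module to a module with all fraction fields equal to `F`. -/
def S_HMW : Prop := ∀ (O K F : Type) [CommRing O] [IsDomain O] [Field K] [Algebra O K]
  [IsFractionRing O K] [Field F] [Algebra K F] [Algebra O F] [IsScalarTower O K F] (n e : ℕ),
  1 ≤ e → ∀ x : Option (Fin (n + 1)) → F, x (some 0) = 1 →
  IntermediateField.adjoin K (Set.range x) = ⊤ →
  GoodModule O (zz e x) → Pool.Agent.H918R2.Quad.HasModule O F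

/-- The affine coverings in a box. -/
def PWBox {O ι : Type} [CommRing O] (ω : Module.Basis ι ℤ O) (n e m H : ℕ) :
    Set (MvPolynomial (Option (Fin n)) O) :=
  {f | (∀ s, f.coeff s ≠ 0 → s none * e + ∑ j, s (some j) ≤ m * e) ∧
    f.coeff (Finsupp.single none m) = 1 ∧
    ∀ s, s ≠ Finsupp.single none m → ∀ i, |ω.repr (f.coeff s) i| ≤ H}

/-- **PBW**: weighted forms and polynomials. -/
def S_PBW : Prop := ∀ (O ι : Type) [CommRing O] [Fintype ι] (ω : Module.Basis ι ℤ O)
  (n e m H : ℕ), 1 ≤ e → Set.BijOn dhW (WBox ω n e m H) (PWBox ω n e m H)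

end Pool.Agent.K3h75.NW
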