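import Pool.Agent.K3h75.NW.StmN

/-!
# Coverings of projective spaces with nodal reductions at large primes: statements
-/

set_option autoImplicit false

namespace Pool.Agent.K3h75.NW

open MvPolynomial Pool.Agent.R187.WC Pool.Agent.K3h75.ND NumberField

/-- The covering with coefficients `a` in the ring `O` is smooth over all fields of characteristic
zero, and over all fields of characteristic larger than `P` it has only nondegenerate singular
points. -/
def GoodVecEW {O : Type} [CommRing O] {N e m : ℕ} (P : ℕ) (a : CoefW N e m → O) : Prop :=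
  (∀ (k : Type) [Field k] [CharZero k] (φ : O →+* k) (x : Option (Fin (N + 1)) → k),
    (∀ j, eval x (pderiv j (wform fun s => φ (a s))) = 0) → ∀ i, x (some i) = 0) ∧
  ∀ p : ℕ, p.Prime → P < p → ∀ (k : Type) [Field k] [CharP k p] (φ : O →+* k)
    (x : Option (Fin (N + 1)) → k) (s : Fin (N + 1)), x (some s) = 1 →
    eval x (wform fun s => φ (a s)) = 0 →
    (∀ j, eval x (pderiv j (wform fun s => φ (a s))) = 0) →
    hdetW (wform fun s => φ (a s)) s x ≠ 0

/-- **CNTEW**: all but a small proportion of all coverings with coefficients in `O`. -/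
def S_CNTEW : Prop := ∀ (O ι : Type) [CommRing O] [IsDomain O] [CharZero O] [Fintype ι]
  (ω : Module.Basis ι ℤ O) (N e m : ℕ), 1 ≤ N → 1 ≤ e → 2 ≤ m → ∀ ε : ℝ, 0 < ε →
  ∃ P H₀ : ℕ, ∀ H : ℕ, H₀ ≤ H →
    ({a : CoefW N e m → O | (∀ s i, |ω.repr (a s) i| ≤ H) ∧ ¬ GoodVecEW P a}.ncard : ℝ) ≤
      ε * (2 * (H : ℝ) + 1) ^ (Fintype.card (CoefW N e m) * Fintype.card ι)

/-- **G0EW**: smoothness and nodal reductions over all localizations of rings of integers in which
the small primes are invertible. -/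
def S_G0EW : Prop := ∀ (n e m P : ℕ), 1 ≤ e → 1 ≤ m → ∀ (O : Type) [CommRing O]
  (a : CoefW n e m → O), GoodVecEW P a →
  ∀ (E R : Type) [Field E] [NumberField E] [CommRing R] [Algebra (𝓞 E) R]
  [Algebra R E] [IsScalarTower (𝓞 E) R E] (M : Submonoid (𝓞 E)), (0 : 𝓞 E) ∉ M →
  IsLocalization M R →
  (∀ p : ℕ, p.Prime → p ≤ P → IsUnit (p : R)) → ∀ (ψ : O →+* R),
  SmoothW (map (algebraMap R E) (wform fun s => ψ (a s))) ∧
  ∀ 𝔭 : Ideal R, 𝔭.IsPrime → 𝔭 ≠ ⊥ → NodW 𝔭 (wform fun s => ψ (a s))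

end Pool.Agent.K3h75.NW
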